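import Pool.Agent.L7h71.GC.Stm

set_option autoImplicit false

/-!
# Project GC (helper71): part EXR, enumeration of the top points
-/

namespace Pool.Agent.L7h73.GC

open Set Function FirstOrder FirstOrder.Language
open Pool.Agent.L7h71.GC
open Pool.Agent.L7h71.GB (pt)

theorem gen_of_G1 {L : FirstOrder.Language.{0, 0}} {S : L.Structure ℕ} {v : ℕ → ℕ} {y p i : ℕ}
    (h : G1 S y p) (hi : v i = y) : Gen S v p := by
  obtain ⟨t, ht⟩ := h
  refine ⟨t.relabel fun _ => i, ?_⟩
  have h1 : tr S v (t.relabel fun _ => i) = tr S (fun _ => y) t := by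
    unfold tr
    rw [@Term.realize_relabel L ℕ S]
    congr 1
    funext j
    exact hi
  rw [h1, ht]

theorem s_EXR : S_EXR := by
  intro L S hS hfg
  have hinf : (setOf (TopP S)).Infinite := by
    intro hfin
    apply hfg
    obtain ⟨n, hn⟩ := hS.bdd
    refine ⟨hfin.toFinset.toList, ?_, fun p => ?_⟩
    · obtain ⟨y, -, hy, -⟩ := hn 0
      intro h
      have h1 : y ∈ hfin.toFinset.toList := Finset.mem_toList.2 (hfin.mem_toFinset.2 hy)
      rw [h] at h1
      exact absurd h1 (List.not_mem_nil)
    · obtain ⟨y, h1, hy, -⟩ := hn p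
      have h2 : y ∈ hfin.toFinset.toList := Finset.mem_toList.2 (hfin.mem_toFinset.2 hy)
      obtain ⟨i, hi, h3⟩ := List.getElem_of_mem h2
      refine gen_of_G1 (i := i) h1 ?_
      unfold pt
      rw [List.getD_eq_getElem _ _ hi, h3]
  refine ⟨Nat.nth (TopP S), Nat.nth_injective hinf, fun y => ?_⟩
  have h := Nat.range_nth_of_infinite hinf
  constructor
  · intro hy
    have : y ∈ range (Nat.nth (TopP S)) := by rw [h]; exact hy
    exact this
  · intro hy
    have : y ∈ range (Nat.nth (TopP S)) := hy
    rw [h] at this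
    exact this

end Pool.Agent.L7h73.GC
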