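import Pool.Agent.L7h73.GC.Sep

/-!
# Project GC (helper70), part DET2: almost all targets (helper73)
-/

set_option autoImplicit false

namespace Pool.Agent.L7h73.GC

open Finset MeasureTheory Filter
open Pool.Agent.L7h43.MW (ee norm_ee ee_add ee_neg ee_sum continuous_ee)
open Pool.Agent.L7h70.GC

/-- the exceptional targets -/
def Ex {ι : Type} [Fintype ι] (a c : ι → ℝ) (δ : ℝ) : Set ℝ :=
  {τ | ∀ x : ι → ℕ, (∀ i, 0 < x i) → τ ^ (-δ) ≤ |GG a c x - τ|}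

lemma sum_prod {ι : Type} [Fintype ι] [DecidableEq ι] (a A c : ι → ℝ) (l : ℕ) (S : Finset ℤ)
    (t : ℤ → ℝ) (ξ : ℝ) :
    ‖∑ v ∈ BX A c l ×ˢ S, ee (ξ * (GG a c v.1 - t v.2))‖ =
      (∏ i, ‖SS (nn A c l i) (a i) (c i) ξ‖) * ‖∑ k ∈ S, ee (ξ * (-(t k)))‖ := by
  have h1 := sum_BX a A c l 0 ξ
  rw [← h1, ← norm_mul]
  congr 1
  rw [Finset.sum_product, Finset.sum_mul_sum]
  refine Finset.sum_congr rfl fun x _ => Finset.sum_congr rfl fun k _ => ?_
  rw [← ee_add]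
  congr 1
  ring

/-- few exceptional targets at a level -/
theorem level_bound (hC : S_COARSE) {ι : Type} [Fintype ι] [DecidableEq ι] (i₀ : ι)
    (a A c : ι → ℝ) (hD : Dom i₀ a A c) (δ δ1 κ η : ℝ) (hδ : 0 ≤ δ) (hδ1 : δ < δ1) (hκ : 0 < κ)
    (hκc : κ < 1 / (2 * c i₀))
    (hI : ∀ᶠ l : ℕ in atTop, ∫⁻ ξ in Set.Ioc (((2 : ℝ) ^ l) ^ (-1 + κ)) (((2 : ℝ) ^ l) ^ δ1),
      ∏ i, ENNReal.ofReal (‖SS (nn A c l i) (a i) (c i) ξ‖ ^ 2 / (nn A c l i) ^ 2) ≤
        ENNReal.ofReal (((2 : ℝ) ^ l) ^ (-1 - η))) :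
    ∃ C : ℝ, 0 < C ∧ ∀ᶠ l : ℕ in atTop,
      volume {τ : ℝ | a i₀ * A i₀ ^ c i₀ * (3 / 2 : ℝ) ^ c i₀ * 2 ^ l ≤ τ ∧
        τ ≤ a i₀ * A i₀ ^ c i₀ * (3 : ℝ) ^ c i₀ * 2 ^ l ∧ τ ∈ Ex a c δ} ≤
        ENNReal.ofReal (C * ((2 : ℝ) ^ l) ^ (1 - η)) := by
  have hpi := Real.pi_pos
  obtain ⟨ha, hA, hc, hdom⟩ := hD
  have hc0 := hc i₀
  have hc0p : 0 < c i₀ := by linarith
  have hκ2 : 2 * κ < 1 / c i₀ := by
    rw [lt_div_iff₀ (by positivity)] at hκc ⊢
    linarith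
  have hκ1 : 2 * κ < 1 := lt_of_lt_of_le hκ2 (by rw [div_le_one hc0p]; exact hc0)
  obtain ⟨b, hb, hco⟩ := hC ι i₀ a A c ⟨ha, hA, hc, hdom⟩ (2 * κ) (by linarith) hκ2
  set s : ℕ := Fintype.card ι with hs
  set K : ℝ := 4 ^ s with hK
  have hKp : 0 < K := by positivity
  set δa : ℝ := δ + (δ1 - δ) / 3 with hδa
  set δ' : ℝ := δ + 2 * (δ1 - δ) / 3 with hδ'
  have e1 : δ < δa := by rw [hδa]; linarith
  have e2 : δa < δ' := by rw [hδa, hδ']; linarith
  have e3 : δ' < δ1 := by rw [hδ']; linarith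
  set lo : ℝ := a i₀ * A i₀ ^ c i₀ * (3 / 2 : ℝ) ^ c i₀ with hlo
  set hi : ℝ := a i₀ * A i₀ ^ c i₀ * (3 : ℝ) ^ c i₀ with hhi
  have ha0 := ha i₀
  have hA0 : 0 < A i₀ := by linarith [hA i₀]
  have hlop : 0 < lo := by rw [hlo]; positivity
  have hhip : 0 < hi := by rw [hhi]; positivity
  set Ce : ℝ := Real.exp Real.pi * Cg with hCe
  have hCep : 0 < Ce := mul_pos (Real.exp_pos _) Cg_pos
  refine ⟨16 * Ce / b ^ 2, by positivity, ?_⟩
  have t1 := tend2.eventually (large (-1 - κ) (-1) (2 * (Real.pi * K) * (8 / b)) (by linarith))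
  have t3 := tend2.eventually (tiny (δ1 - δ') (4 * K * (8 / b)) (δ' + 1) (by linarith) (Real.pi / 2)
    (by positivity))
  have t4 := tend2.eventually (tiny (δ' - δa) (K * (8 / b)) (δ' + 1) (by linarith) Real.pi hpi)
  have t5 := tend2.eventually (large (-δa) (-δ) (hi ^ δ) (by linarith))
  filter_upwards [hI, hco, t1, t3, t4, t5] with l g1 g2 g3 g5 g6 g7
  set H : ℝ := (2 : ℝ) ^ l with hH
  have hH1 : 1 ≤ H := one_le_pow₀ (by norm_num)
  have hH0 : 0 < H := by linarith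
  set Q : ℝ := ∏ i, nn A c l i with hQQ
  have hnn : ∀ i, 1 ≤ nn A c l i := fun i => nn_ge (hA i) (hc i)
  have hQQp : 0 < Q := Finset.prod_pos fun i _ => by linarith [hnn i]
  -- the cells which contain an exceptional target
  set B : ℝ := H ^ δ1 with hB
  have hBp : 0 < B := by positivity
  set E : Set ℝ := {τ : ℝ | lo * H ≤ τ ∧ τ ≤ hi * H ∧ τ ∈ Ex a c δ} with hE
  classical
  let S : Finset ℤ := (Finset.Icc 0 ⌊hi * H * B⌋).filter (fun k => ∃ τ ∈ E, ⌊τ * B⌋ = k)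
  have hS : ∀ k, ∃ τ, k ∈ S → τ ∈ E ∧ ⌊τ * B⌋ = k := by
    intro k
    by_cases hk : k ∈ S
    · obtain ⟨τ, h1, h2⟩ := (mem_filter.1 hk).2
      exact ⟨τ, fun _ => ⟨h1, h2⟩⟩
    · exact ⟨0, fun h => absurd h hk⟩
  choose t ht using hS
  have ht2 : ∀ k ∈ S, (k : ℝ) ≤ t k * B ∧ t k * B < k + 1 := by
    intro k hk
    have h1 := (ht k hk).2
    rw [Int.floor_eq_iff] at h1
    exact h1
  have hcover : E ⊆ ⋃ k ∈ S, Set.Ico ((k : ℝ) / B) ((k + 1) / B) := by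
    intro τ hτ
    have hτ0 : 0 ≤ τ := le_trans (by positivity) hτ.1
    refine Set.mem_iUnion₂.2 ⟨⌊τ * B⌋, ?_, ?_⟩
    · refine mem_filter.2 ⟨Finset.mem_Icc.2 ⟨Int.floor_nonneg.2 (by positivity), ?_⟩, τ, hτ, rfl⟩
      apply Int.floor_le_floor
      exact mul_le_mul_of_nonneg_right hτ.2.1 hBp.le
    · refine ⟨?_, ?_⟩
      · rw [div_le_iff₀ hBp]
        exact Int.floor_le _
      · rw [lt_div_iff₀ hBp]
        exact Int.lt_floor_add_one _
  have hvol : volume E ≤ ENNReal.ofReal (S.card / B) := by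
    refine (measure_mono hcover).trans ((measure_biUnion_finset_le _ _).trans ?_)
    have h1 : ∀ k ∈ S, volume (Set.Ico ((k : ℝ) / B) ((k + 1) / B)) = ENNReal.ofReal (1 / B) := by
      intro k _
      rw [Real.volume_Ico]
      congr 1
      ring
    rw [Finset.sum_congr rfl h1, Finset.sum_const, nsmul_eq_mul, ← ENNReal.ofReal_natCast,
      ← ENNReal.ofReal_mul (by positivity)]
    apply le_of_eq
    congr 1
    ring
  -- the comparison of the two scales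
  set n : ℝ := (S.card : ℝ) with hn
  have hn0 : 0 ≤ n := by positivity
  -- the middle range
  set l1 : ℝ := 8 * Ce * B * H / (b * Q) with hl1
  have hl1p : 0 < l1 := by positivity
  set M : ℝ := l1 / 2 * (Q ^ 2 * H ^ (-1 - η)) + 1 / (2 * l1) * (Real.exp Real.pi * (Cg * B * n))
    with hM
  have hM0 : 0 ≤ M := by
    have := Cg_pos
    positivity
  have hIB : ∫⁻ ξ in Set.Ioc (H ^ (-1 + κ)) B,
      ENNReal.ofReal ‖∑ v ∈ BX A c l ×ˢ S, ee (ξ * (GG a c v.1 - t v.2))‖ ≤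
        ENNReal.ofReal M := by
    simp_rw [sum_prod]
    refine csl _ measurableSet_Ioc (fun ξ => ∏ i, ‖SS (nn A c l i) (a i) (c i) ξ‖)
      (fun ξ => ‖∑ k ∈ S, ee (ξ * (-(t k)))‖) ?_ _ _ l1 hl1p (by positivity)
      (by have := Cg_pos; positivity) ?_ ?_
    · exact (continuous_finsetProd _ fun i _ => (SS_cont _ _ _).norm).measurable
    · simp_rw [prod_sq a A c l _ (fun i => by linarith [hnn i])]
      rw [lintegral_const_mul' _ _ ENNReal.ofReal_ne_top, ENNReal.ofReal_mul (by positivity)]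
      gcongr
    · exact mean_sq B hBp _ (by positivity) S t ht2
  have hcardV : (((BX A c l ×ˢ S).card : ℕ) : ℝ) ≤ K * Q * n := by
    rw [Finset.card_product]
    push_cast
    exact mul_le_mul_of_nonneg_right (card_BX hA hc) hn0
  have hcore := core (BX A c l ×ˢ S) (fun v => GG a c v.1 - t v.2) (H ^ δ') (H ^ (-1 + 2 * κ))
    (H ^ (-1 + κ)) B M (K * Q * n) (by positivity)
    (Real.rpow_le_rpow_of_exponent_le hH1 (by linarith)) (by positivity)
    (Real.rpow_le_rpow_of_exponent_le hH1 (by linarith)) hcardV hM0 hIB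
  have hcore2 := (abs_le.1 hcore).1
  -- wide sum
  have hwide : b * Q / H * n ≤ ∑ v ∈ BX A c l ×ˢ S,
      H ^ (-1 + 2 * κ) * Real.exp (-(Real.pi * (H ^ (-1 + 2 * κ)) ^ 2 *
        (GG a c v.1 - t v.2) ^ 2)) := by
    rw [Finset.sum_product_right]
    have h1 : ∀ k ∈ S, b * Q / H ≤ ∑ x ∈ BX A c l,
        H ^ (-1 + 2 * κ) * Real.exp (-(Real.pi * (H ^ (-1 + 2 * κ)) ^ 2 *
          (GG a c x - t k) ^ 2)) := by
      intro k hk
      have h2 := (ht k hk).1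
      exact g2 (t k) h2.1 h2.2.1
    refine le_trans (le_of_eq ?_) (Finset.sum_le_sum h1)
    rw [Finset.sum_const, nsmul_eq_mul, hn, mul_comm]
  -- narrow sum
  have hnarrow : ∑ v ∈ BX A c l ×ˢ S,
      H ^ δ' * Real.exp (-(Real.pi * (H ^ δ') ^ 2 * (GG a c v.1 - t v.2) ^ 2)) ≤
      K * Q * n * (H ^ δ' * Real.exp (-(Real.pi * (H ^ δ' * H ^ (-δa)) ^ 2))) := by
    have h1 : ∀ v ∈ BX A c l ×ˢ S,
        H ^ δ' * Real.exp (-(Real.pi * (H ^ δ') ^ 2 * (GG a c v.1 - t v.2) ^ 2)) ≤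
        H ^ δ' * Real.exp (-(Real.pi * (H ^ δ' * H ^ (-δa)) ^ 2)) := by
      intro v hv
      rw [Finset.mem_product] at hv
      have h2 := (ht v.2 hv.2).1
      have hτ1 := h2.1
      have hτ2 := h2.2.1
      have hτ0 : 0 < t v.2 := lt_of_lt_of_le (by positivity) hτ1
      have hpos : ∀ i, 0 < v.1 i := by
        intro i
        have hx := hv.1
        unfold BX at hx
        rw [Fintype.mem_piFinset] at hx
        have h3 := (mem_XX (by linarith [nn_ge (l := l) (hA i) (hc i)])).1 (hx i)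
        have h4 : (0 : ℝ) < v.1 i :=
          lt_trans (by linarith [nn_ge (l := l) (hA i) (hc i)]) h3.1
        exact_mod_cast h4
      have h5 : H ^ (-δa) ≤ |GG a c v.1 - t v.2| := by
        refine le_trans ?_ (h2.2.2 v.1 hpos)
        calc H ^ (-δa) = (hi ^ δ * H ^ (-δa)) * hi ^ (-δ) := by
              rw [Real.rpow_neg hhip.le]; field_simp
          _ ≤ H ^ (-δ) * hi ^ (-δ) := by gcongr
          _ = (hi * H) ^ (-δ) := by rw [mul_comm, ← Real.mul_rpow hhip.le hH0.le]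
          _ ≤ (t v.2) ^ (-δ) := Real.rpow_le_rpow_of_nonpos hτ0 hτ2 (by linarith)
      have h6 : (H ^ (-δa)) ^ 2 ≤ (GG a c v.1 - t v.2) ^ 2 := by
        rw [← sq_abs (GG a c v.1 - t v.2)]
        exact pow_le_pow_left₀ (by positivity) h5 2
      have h7 : Real.pi * (H ^ δ' * H ^ (-δa)) ^ 2 ≤
          Real.pi * (H ^ δ') ^ 2 * (GG a c v.1 - t v.2) ^ 2 := by
        rw [mul_pow, ← mul_assoc]
        gcongr
      gcongr
    refine (Finset.sum_le_sum h1).trans ?_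
    rw [Finset.sum_const, nsmul_eq_mul]
    exact mul_le_mul_of_nonneg_right hcardV (by positivity)
  -- the error terms
  have E1 : Real.pi * (H ^ (-1 + κ)) ^ 2 / (H ^ (-1 + 2 * κ)) ^ 2 * (K * Q * n) * H ^ (-1 + κ) =
      Real.pi * K * (Q * n) * H ^ (-1 - κ) := by
    have : (H ^ (-1 + κ)) ^ 2 / (H ^ (-1 + 2 * κ)) ^ 2 * H ^ (-1 + κ) = H ^ (-1 - κ) := by
      rw [← Real.rpow_natCast, ← Real.rpow_natCast, ← Real.rpow_mul hH0.le, ← Real.rpow_mul hH0.le,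
        ← Real.rpow_sub hH0, ← Real.rpow_add hH0]
      congr 1
      push_cast
      ring
    rw [← this]; ring
  have E2 : (B / H ^ δ') ^ 2 = (H ^ (δ1 - δ')) ^ 2 := by rw [hB, Real.rpow_sub hH0]
  have E3 : (H ^ δ' * H ^ (-δa)) ^ 2 = (H ^ (δ' - δa)) ^ 2 := by
    rw [← Real.rpow_add hH0]; congr 2
  rw [E1, E2] at hcore2
  rw [E3] at hnarrow
  have hHi : H ^ (-1 : ℝ) = 1 / H := by rw [Real.rpow_neg_one]; simp
  rw [hHi] at g3
  have hHd : H ^ (δ' + 1) = H ^ δ' * H := by rw [Real.rpow_add hH0, Real.rpow_one]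
  rw [hHd] at g5 g6
  have hy : 0 ≤ Q * n := by positivity
  have f3 : 2 * (Real.pi * K * (Q * n) * H ^ (-1 - κ)) ≤ b / 8 * (Q * n / H) := by
    calc 2 * (Real.pi * K * (Q * n) * H ^ (-1 - κ)) =
        (2 * (Real.pi * K) * (8 / b) * H ^ (-1 - κ)) * (b / 8 * (Q * n)) := by field_simp
      _ ≤ (1 / H) * (b / 8 * (Q * n)) := by gcongr
      _ = _ := by ring
  have f5 : 2 * (K * Q * n * (2 * H ^ δ' * Real.exp (-(Real.pi / 2 * (H ^ (δ1 - δ')) ^ 2)))) ≤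
      b / 8 * (Q * n / H) := by
    calc 2 * (K * Q * n * (2 * H ^ δ' * Real.exp (-(Real.pi / 2 * (H ^ (δ1 - δ')) ^ 2)))) =
        (4 * K * (8 / b) * (H ^ δ' * H) * Real.exp (-(Real.pi / 2 * (H ^ (δ1 - δ')) ^ 2))) *
          (b / 8 * (Q * n / H)) := by field_simp; ring
      _ ≤ 1 * (b / 8 * (Q * n / H)) := by gcongr
      _ = _ := one_mul _
  have f6 : K * Q * n * (H ^ δ' * Real.exp (-(Real.pi * (H ^ (δ' - δa)) ^ 2))) ≤
      b / 8 * (Q * n / H) := by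
    calc K * Q * n * (H ^ δ' * Real.exp (-(Real.pi * (H ^ (δ' - δa)) ^ 2))) =
        (K * (8 / b) * (H ^ δ' * H) * Real.exp (-(Real.pi * (H ^ (δ' - δa)) ^ 2))) *
          (b / 8 * (Q * n / H)) := by field_simp
      _ ≤ 1 * (b / 8 * (Q * n / H)) := by gcongr
      _ = _ := one_mul _
  have f4 : 2 * M = 8 * Ce / b * (B * Q * (H * H ^ (-1 - η))) + b / 8 * (Q * n / H) := by
    rw [hM, hl1, hCe]
    have h1 : Real.exp Real.pi ≠ 0 := (Real.exp_pos _).ne'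
    have h2 : Cg ≠ 0 := Cg_pos.ne'
    field_simp
  have hHη : H * H ^ (-1 - η) = H ^ (-η) := by
    nth_rewrite 1 [← Real.rpow_one H]
    rw [← Real.rpow_add hH0]
    congr 1
    ring
  rw [hHη] at f4
  have hfin : b / 2 * (Q * n / H) ≤ 8 * Ce / b * (B * Q * H ^ (-η)) := by
    have hpos : b * Q / H * n = b * (Q * n / H) := by ring
    rw [hpos] at hwide
    linarith
  have hfin2 : n / B ≤ 16 * Ce / b ^ 2 * H ^ (1 - η) := by
    have h1 : H ^ (1 - η) = H * H ^ (-η) := by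
      nth_rewrite 2 [← Real.rpow_one H]
      rw [← Real.rpow_add hH0]
      congr 1
    rw [h1, div_le_iff₀ hBp]
    have h2 : n = (b / 2 * (Q * n / H)) * (2 * H / (b * Q)) := by
      field_simp
    have h3 : (8 * Ce / b * (B * Q * H ^ (-η))) * (2 * H / (b * Q)) =
        16 * Ce / b ^ 2 * (H * H ^ (-η)) * B := by
      field_simp
      ring
    rw [h2, ← h3]
    exact mul_le_mul_of_nonneg_right hfin (by positivity)
  exact hvol.trans (ENNReal.ofReal_le_ofReal hfin2)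

/-- DET2 -/
theorem s_DET2 (hC : S_COARSE) : S_DET2 := by
  intro ι _ _ i₀ a A c hD δ δ1 κ η hδ hδ1 hκ hκc hη hI
  obtain ⟨C, hCp, hCl⟩ := level_bound hC i₀ a A c hD δ δ1 κ η hδ hδ1 hκ hκc hI
  obtain ⟨ha, hA, hc, hdom⟩ := hD
  have hc0 := hc i₀
  set lo : ℝ := a i₀ * A i₀ ^ c i₀ * (3 / 2 : ℝ) ^ c i₀ with hlo
  set hi : ℝ := a i₀ * A i₀ ^ c i₀ * (3 : ℝ) ^ c i₀ with hhi
  have ha0 := ha i₀
  have hA0 : 0 < A i₀ := by linarith [hA i₀]
  have hlop : 0 < lo := by rw [hlo]; positivity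
  have hlohi : 2 * lo ≤ hi := by
    rw [hlo, hhi]
    have := two_mul_lo hc0
    calc 2 * (a i₀ * A i₀ ^ c i₀ * (3 / 2 : ℝ) ^ c i₀) = a i₀ * A i₀ ^ c i₀ * (2 * (3 / 2 : ℝ) ^ c i₀) := by ring
      _ ≤ _ := by gcongr
  obtain ⟨L, hL⟩ := eventually_atTop.1 hCl
  set θ : ℝ := min η (1 / 2) with hθ
  have hθ0 : 0 < θ := lt_min hη (by norm_num)
  have hθ1 : θ ≤ 1 / 2 := min_le_right _ _
  have hθη : θ ≤ η := min_le_left _ _
  set q : ℝ := (2 : ℝ) ^ (1 - θ) with hq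
  have hq1 : 1 < q := Real.one_lt_rpow (by norm_num) (by linarith)
  have hq0 : 0 < q - 1 := by linarith
  refine ⟨θ / 2, by positivity, ?_⟩
  have u1 := (tendsto_natCast_atTop_atTop (R := ℝ)).eventually
    (large (1 - θ) (1 - θ / 2) (2 * (C * (q / (q - 1)) * lo ^ (-(1 - θ)))) (by linarith))
  have u2 := (tendsto_natCast_atTop_atTop (R := ℝ)).eventually
    (large 0 (1 - θ / 2) (2 * (lo * 2 ^ L)) (by linarith))
  have u3 := (tendsto_natCast_atTop_atTop (R := ℝ)).eventually (eventually_ge_atTop lo)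
  filter_upwards [u1, u2, u3] with N g1 g2 g3
  have hN0 : (0 : ℝ) < N := lt_of_lt_of_le hlop g3
  rw [Real.rpow_zero, mul_one] at g2
  have hX : 1 ≤ (N : ℝ) / lo := by rwa [le_div_iff₀ hlop, one_mul]
  obtain ⟨m, hm1, hm2⟩ := exists_nat_pow_near hX (show (1 : ℝ) < 2 by norm_num)
  set E : ℕ → Set ℝ := fun l => {τ : ℝ | lo * 2 ^ l ≤ τ ∧ τ ≤ hi * 2 ^ l ∧ τ ∈ Ex a c δ} with hE
  have hcov : {τ : ℝ | 1 ≤ τ ∧ τ ≤ N ∧ ∀ x : ι → ℕ, (∀ i, 0 < x i) → τ ^ (-δ) ≤ |GG a c x - τ|} ⊆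
      Set.Icc 0 (lo * 2 ^ L) ∪ ⋃ l ∈ Finset.Ico L (m + 1), E l := by
    rintro τ ⟨h1, h2, h3⟩
    rcases le_total τ (lo * 2 ^ L) with h | h
    · exact Or.inl ⟨by linarith, h⟩
    · right
      have h4 : 1 ≤ τ / (lo * 2 ^ L) := by rw [le_div_iff₀ (by positivity)]; linarith
      obtain ⟨k, hk1, hk2⟩ := exists_nat_pow_near h4 (show (1 : ℝ) < 2 by norm_num)
      rw [le_div_iff₀ (by positivity)] at hk1
      rw [div_lt_iff₀ (by positivity)] at hk2
      have h5 : lo * 2 ^ (L + k) ≤ τ := by rw [pow_add]; nlinarith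
      refine Set.mem_iUnion₂.2 ⟨L + k, ?_, h5, ?_, h3⟩
      · rw [Finset.mem_Ico]
        refine ⟨by omega, ?_⟩
        have h6 : (2 : ℝ) ^ (L + k) < 2 ^ (m + 1) := by
          refine lt_of_le_of_lt ?_ hm2
          rw [le_div_iff₀ hlop]
          linarith
        exact (pow_lt_pow_iff_right₀ (by norm_num)).1 h6
      · have h6 : τ ≤ 2 * lo * (2 ^ L * 2 ^ k) := by
          rw [pow_succ] at hk2; nlinarith
        rw [pow_add]
        exact h6.trans (by gcongr)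
  have hqm : ∀ k : ℕ, q ^ k = ((2 : ℝ) ^ k) ^ (1 - θ) := by
    intro k
    rw [hq, ← Real.rpow_natCast ((2 : ℝ) ^ (1 - θ)) k, ← Real.rpow_natCast (2 : ℝ) k,
      ← Real.rpow_mul (by norm_num), ← Real.rpow_mul (by norm_num), mul_comm]
  have hEl : ∀ l ∈ Finset.Ico L (m + 1), volume (E l) ≤ ENNReal.ofReal (C * q ^ l) := by
    intro l hl
    refine (hL l (Finset.mem_Ico.1 hl).1).trans (ENNReal.ofReal_le_ofReal ?_)
    apply mul_le_mul_of_nonneg_left _ hCp.le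
    rw [hqm]
    exact Real.rpow_le_rpow_of_exponent_le (one_le_pow₀ (by norm_num)) (by linarith)
  have hsum : ∑ l ∈ Finset.Ico L (m + 1), q ^ l ≤ q / (q - 1) * (lo ^ (-(1 - θ)) * (N : ℝ) ^ (1 - θ)) := by
    calc ∑ l ∈ Finset.Ico L (m + 1), q ^ l ≤ ∑ l ∈ Finset.range (m + 1), q ^ l := by
          apply Finset.sum_le_sum_of_subset_of_nonneg
          · intro l hl
            rw [Finset.mem_range]
            exact (Finset.mem_Ico.1 hl).2
          · intro l _ _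
            positivity
      _ = (q ^ (m + 1) - 1) / (q - 1) := geom_sum_eq hq1.ne' _
      _ ≤ q ^ (m + 1) / (q - 1) := by gcongr; linarith
      _ = q / (q - 1) * q ^ m := by rw [pow_succ]; ring
      _ ≤ q / (q - 1) * (lo ^ (-(1 - θ)) * (N : ℝ) ^ (1 - θ)) := by
          apply mul_le_mul_of_nonneg_left _ (by positivity)
          rw [hqm]
          calc ((2 : ℝ) ^ m) ^ (1 - θ) ≤ ((N : ℝ) / lo) ^ (1 - θ) :=
                Real.rpow_le_rpow (by positivity) hm1 (by linarith)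
            _ = lo ^ (-(1 - θ)) * (N : ℝ) ^ (1 - θ) := by
                rw [Real.div_rpow hN0.le hlop.le, Real.rpow_neg hlop.le]
                ring
  calc volume {τ : ℝ | 1 ≤ τ ∧ τ ≤ N ∧ ∀ x : ι → ℕ, (∀ i, 0 < x i) → τ ^ (-δ) ≤ |GG a c x - τ|} ≤
      volume (Set.Icc 0 (lo * 2 ^ L) ∪ ⋃ l ∈ Finset.Ico L (m + 1), E l) := measure_mono hcov
    _ ≤ volume (Set.Icc 0 (lo * 2 ^ L)) + volume (⋃ l ∈ Finset.Ico L (m + 1), E l) :=
        measure_union_le _ _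
    _ ≤ ENNReal.ofReal (lo * 2 ^ L) + ∑ l ∈ Finset.Ico L (m + 1), ENNReal.ofReal (C * q ^ l) := by
        apply add_le_add
        · rw [Real.volume_Icc, sub_zero]
        · exact (measure_biUnion_finset_le _ _).trans (Finset.sum_le_sum hEl)
    _ = ENNReal.ofReal (lo * 2 ^ L + C * ∑ l ∈ Finset.Ico L (m + 1), q ^ l) := by
        rw [← ENNReal.ofReal_sum_of_nonneg (fun l _ => by positivity),
          ← ENNReal.ofReal_add (by positivity) (Finset.sum_nonneg fun l _ => by positivity),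
          Finset.mul_sum]
    _ ≤ ENNReal.ofReal ((N : ℝ) ^ (1 - θ / 2)) := by
        apply ENNReal.ofReal_le_ofReal
        have h1 : C * ∑ l ∈ Finset.Ico L (m + 1), q ^ l ≤
            C * (q / (q - 1) * (lo ^ (-(1 - θ)) * (N : ℝ) ^ (1 - θ))) :=
          mul_le_mul_of_nonneg_left hsum hCp.le
        have h2 : 2 * (C * (q / (q - 1) * (lo ^ (-(1 - θ)) * (N : ℝ) ^ (1 - θ)))) =
            2 * (C * (q / (q - 1)) * lo ^ (-(1 - θ))) * (N : ℝ) ^ (1 - θ) := by ring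
        linarith

end Pool.Agent.L7h73.GC
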