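import Pool.Agent.L7h70.GC.Det

/-!
# Project GC (helper70), part DET2: separated points and Gaussian sums (helper73)
-/

set_option autoImplicit false

namespace Pool.Agent.L7h73.GC

open Finset MeasureTheory Filter
open Pool.Agent.L7h43.MW (ee norm_ee ee_add ee_neg ee_sum continuous_ee Kr Kr_nonneg Kr_le_gauss
  Kr_le_sq cmp gk integrable_gauss)
open Pool.Agent.L7h70.GC

/-- (`Pool.Agent.L7h43.MW.gauss_sq`, copied to keep the imports small) -/
lemma gauss_sq {ι : Type*} (E : Finset ι) (m : ι → ℝ) (T : ℝ) (hT : 0 < T) :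
    ∫⁻ ξ : ℝ, ENNReal.ofReal (Real.exp (-(Real.pi * ξ ^ 2 / T ^ 2)) * ‖∑ i ∈ E, ee (ξ * m i)‖ ^ 2) =
      ENNReal.ofReal (∑ i ∈ E, ∑ j ∈ E, T * Real.exp (-(Real.pi * T ^ 2 * (m i - m j) ^ 2))) := by
  have hi : ∀ u : ℝ, Integrable (fun ξ : ℝ =>
      ((Real.exp (-(Real.pi * ξ ^ 2 / T ^ 2)) : ℝ) : ℂ) * ee (ξ * u)) := by
    intro u
    refine ((integrable_gauss T hT).ofReal (𝕜 := ℂ)).mul_bdd (c := 1) ?_ ?_
    · exact ((continuous_ee.comp (continuous_id.mul continuous_const))).aestronglyMeasurable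
    · exact Filter.Eventually.of_forall fun ξ => (norm_ee _).le
  have hsq : ∀ ξ : ℝ, (((Real.exp (-(Real.pi * ξ ^ 2 / T ^ 2)) * ‖∑ i ∈ E, ee (ξ * m i)‖ ^ 2 : ℝ)) : ℂ) =
      ∑ i ∈ E, ∑ j ∈ E, ((Real.exp (-(Real.pi * ξ ^ 2 / T ^ 2)) : ℝ) : ℂ) * ee (ξ * (m i - m j)) := by
    intro ξ
    rw [Complex.ofReal_mul]
    have h1 : (((‖∑ i ∈ E, ee (ξ * m i)‖ ^ 2 : ℝ)) : ℂ) = (∑ i ∈ E, ee (ξ * m i)) *
        (starRingEnd ℂ) (∑ i ∈ E, ee (ξ * m i)) := by
      rw [Complex.mul_conj, Complex.normSq_eq_norm_sq]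
    rw [h1, map_sum, Finset.sum_mul_sum, Finset.mul_sum]
    refine Finset.sum_congr rfl fun i _ => ?_
    rw [Finset.mul_sum]
    refine Finset.sum_congr rfl fun j _ => ?_
    rw [← ee_neg, ← ee_add]
    congr 2
    ring
  have hval : ∫ ξ : ℝ, Real.exp (-(Real.pi * ξ ^ 2 / T ^ 2)) * ‖∑ i ∈ E, ee (ξ * m i)‖ ^ 2 =
      ∑ i ∈ E, ∑ j ∈ E, T * Real.exp (-(Real.pi * T ^ 2 * (m i - m j) ^ 2)) := by
    have h2 : ((∫ ξ : ℝ, Real.exp (-(Real.pi * ξ ^ 2 / T ^ 2)) * ‖∑ i ∈ E, ee (ξ * m i)‖ ^ 2 : ℝ) : ℂ) =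
        ((∑ i ∈ E, ∑ j ∈ E, T * Real.exp (-(Real.pi * T ^ 2 * (m i - m j) ^ 2)) : ℝ) : ℂ) := by
      rw [← integral_complex_ofReal]
      simp_rw [hsq]
      rw [integral_finsetSum _ fun i _ => integrable_finsetSum _ fun j _ => hi _]
      push_cast
      refine Finset.sum_congr rfl fun i _ => ?_
      rw [integral_finsetSum _ fun j _ => by simpa using hi _]
      refine Finset.sum_congr rfl fun j _ => ?_
      have := gk T (m i - m j) hT
      push_cast at this
      rw [this]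
    exact_mod_cast h2
  have hint : Integrable (fun ξ : ℝ => Real.exp (-(Real.pi * ξ ^ 2 / T ^ 2)) * ‖∑ i ∈ E, ee (ξ * m i)‖ ^ 2) := by
    refine (integrable_gauss T hT).mul_bdd (c := (E.card : ℝ) ^ 2) ?_ ?_
    · have : Continuous fun ξ : ℝ => ∑ i ∈ E, ee (ξ * m i) :=
        continuous_finsetSum _ fun v _ => continuous_ee.comp (continuous_id.mul continuous_const)
      exact (this.norm.pow 2).aestronglyMeasurable
    · refine Filter.Eventually.of_forall fun ξ => ?_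
      rw [Real.norm_of_nonneg (by positivity)]
      apply pow_le_pow_left₀ (norm_nonneg _)
      calc ‖∑ i ∈ E, ee (ξ * m i)‖ ≤ ∑ i ∈ E, ‖ee (ξ * m i)‖ := norm_sum_le _ _
        _ = E.card := by simp [norm_ee]
  rw [← ofReal_integral_eq_lintegral_ofReal hint (Filter.Eventually.of_forall fun ξ => by positivity), hval]

/-- the bound for points in different cells -/
noncomputable def gf (j : ℤ) : ℝ := Real.exp (-(Real.pi * (max (|(j : ℝ)| - 1) 0) ^ 2))

lemma gf_nonneg (j : ℤ) : 0 ≤ gf j := (Real.exp_pos _).le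

lemma gf_nat (n : ℕ) : gf n ≤ Real.exp 1 * Real.exp (-1) ^ n := by
  unfold gf
  rw [← Real.exp_nat_mul, ← Real.exp_add]
  apply Real.exp_le_exp.2
  have hpi := Real.pi_gt_three
  rcases n with _ | k
  · simp
  · have h1 : max (|(((k + 1 : ℕ) : ℤ) : ℝ)| - 1) 0 = k := by
      have h2 : |(((k + 1 : ℕ) : ℤ) : ℝ)| - 1 = k := by
        rw [abs_of_nonneg (by positivity)]
        push_cast
        ring
      rw [h2]
      exact max_eq_left (by positivity)
    rw [h1]
    push_cast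
    have h3 : (k : ℝ) ≤ (k : ℝ) ^ 2 := by
      rcases k with _ | m
      · simp
      · push_cast
        nlinarith [(Nat.cast_nonneg m : (0 : ℝ) ≤ m)]
    nlinarith [sq_nonneg (k : ℝ)]

lemma gf_neg (j : ℤ) : gf (-j) = gf j := by
  unfold gf
  rw [Int.cast_neg, abs_neg]

lemma gf_summable : Summable gf := by
  have h1 : Summable fun n : ℕ => gf n := by
    refine Summable.of_nonneg_of_le (fun n => gf_nonneg _) gf_nat ?_
    refine Summable.mul_left _ (summable_geometric_of_lt_one (Real.exp_pos _).le ?_)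
    rw [Real.exp_lt_one_iff]
    norm_num
  refine Summable.of_nat_of_neg h1 ?_
  simp_rw [gf_neg]
  exact h1

/-- the constant -/
noncomputable def Cg : ℝ := ∑' j : ℤ, gf j

lemma Cg_pos : 0 < Cg := by
  unfold Cg
  refine gf_summable.tsum_pos gf_nonneg 0 (Real.exp_pos _)

lemma diag (B : ℝ) (hB : 0 < B) (S : Finset ℤ) (t : ℤ → ℝ)
    (ht : ∀ k ∈ S, (k : ℝ) ≤ t k * B ∧ t k * B < k + 1) :
    ∑ k ∈ S, ∑ j ∈ S, B * Real.exp (-(Real.pi * B ^ 2 * (t k - t j) ^ 2)) ≤
      Cg * B * S.card := by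
  have h1 : ∀ k ∈ S, ∑ j ∈ S, B * Real.exp (-(Real.pi * B ^ 2 * (t k - t j) ^ 2)) ≤ Cg * B := by
    intro k hk
    calc ∑ j ∈ S, B * Real.exp (-(Real.pi * B ^ 2 * (t k - t j) ^ 2)) ≤
        ∑ j ∈ S, B * gf (k - j) := by
          refine Finset.sum_le_sum fun j hj => mul_le_mul_of_nonneg_left ?_ hB.le
          unfold gf
          apply Real.exp_le_exp.2
          rw [neg_le_neg_iff, mul_assoc]
          apply mul_le_mul_of_nonneg_left _ Real.pi_pos.le
          rw [← mul_pow]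
          obtain ⟨a1, a2⟩ := ht k hk
          obtain ⟨b1, b2⟩ := ht j hj
          have h2 : max (|((k - j : ℤ) : ℝ)| - 1) 0 ≤ |B * (t k - t j)| := by
            apply max_le _ (abs_nonneg _)
            push_cast
            rcases le_total (k : ℝ) (j : ℝ) with h | h
            · rw [abs_of_nonpos (by linarith)]
              have := neg_abs_le (B * (t k - t j))
              nlinarith
            · rw [abs_of_nonneg (by linarith)]
              have := le_abs_self (B * (t k - t j))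
              nlinarith
          rw [← sq_abs (B * (t k - t j))]
          exact pow_le_pow_left₀ (le_max_right _ _) h2 2
      _ = B * ∑ j ∈ S, gf (k - j) := by rw [Finset.mul_sum]
      _ ≤ B * Cg := by
          apply mul_le_mul_of_nonneg_left _ hB.le
          have h3 : Summable fun j : ℤ => gf (k - j) :=
            (Equiv.subLeft k).summable_iff.2 gf_summable
          refine (h3.sum_le_tsum S fun j _ => gf_nonneg _).trans (le_of_eq ?_)
          exact (Equiv.subLeft k).tsum_eq gf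
      _ = Cg * B := mul_comm _ _
  refine (Finset.sum_le_sum h1).trans (le_of_eq ?_)
  rw [Finset.sum_const, nsmul_eq_mul, mul_comm]

/-- the mean square of the exponential sum over points in different cells -/
lemma mean_sq (B : ℝ) (hB : 0 < B) (B0 : ℝ) (hB0 : 0 < B0) (S : Finset ℤ) (t : ℤ → ℝ)
    (ht : ∀ k ∈ S, (k : ℝ) ≤ t k * B ∧ t k * B < k + 1) :
    ∫⁻ ξ in Set.Ioc B0 B, ENNReal.ofReal (‖∑ k ∈ S, ee (ξ * (-(t k)))‖ ^ 2) ≤
      ENNReal.ofReal (Real.exp Real.pi * (Cg * B * S.card)) := by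
  have hpi := Real.pi_pos
  calc ∫⁻ ξ in Set.Ioc B0 B, ENNReal.ofReal (‖∑ k ∈ S, ee (ξ * (-(t k)))‖ ^ 2) ≤
      ∫⁻ ξ in Set.Ioc B0 B, ENNReal.ofReal (Real.exp Real.pi) *
        ENNReal.ofReal (Real.exp (-(Real.pi * ξ ^ 2 / B ^ 2)) *
          ‖∑ k ∈ S, ee (ξ * (-(t k)))‖ ^ 2) := by
        refine setLIntegral_mono' measurableSet_Ioc fun ξ hξ => ?_
        rw [← ENNReal.ofReal_mul (Real.exp_pos _).le]
        apply ENNReal.ofReal_le_ofReal
        rw [← mul_assoc, ← Real.exp_add]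
        have h1 : 1 ≤ Real.exp (Real.pi + -(Real.pi * ξ ^ 2 / B ^ 2)) := by
          apply Real.one_le_exp
          have h2 : Real.pi * ξ ^ 2 / B ^ 2 ≤ Real.pi := by
            rw [div_le_iff₀ (by positivity)]
            have : ξ ^ 2 ≤ B ^ 2 := pow_le_pow_left₀ (hB0.le.trans hξ.1.le) hξ.2 2
            gcongr
          linarith
        calc ‖∑ k ∈ S, ee (ξ * (-(t k)))‖ ^ 2 = 1 * ‖∑ k ∈ S, ee (ξ * (-(t k)))‖ ^ 2 :=
              (one_mul _).symm
          _ ≤ _ := by gcongr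
    _ ≤ ∫⁻ ξ : ℝ, ENNReal.ofReal (Real.exp Real.pi) *
        ENNReal.ofReal (Real.exp (-(Real.pi * ξ ^ 2 / B ^ 2)) *
          ‖∑ k ∈ S, ee (ξ * (-(t k)))‖ ^ 2) := setLIntegral_le_lintegral _ _
    _ = ENNReal.ofReal (Real.exp Real.pi) * ∫⁻ ξ : ℝ,
        ENNReal.ofReal (Real.exp (-(Real.pi * ξ ^ 2 / B ^ 2)) *
          ‖∑ k ∈ S, ee (ξ * (-(t k)))‖ ^ 2) := lintegral_const_mul' _ _ ENNReal.ofReal_ne_top
    _ = ENNReal.ofReal (Real.exp Real.pi) * ENNReal.ofReal (∑ k ∈ S, ∑ j ∈ S,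
        B * Real.exp (-(Real.pi * B ^ 2 * (-(t k) - -(t j)) ^ 2))) := by
        rw [gauss_sq S (fun k => -(t k)) B hB]
    _ ≤ ENNReal.ofReal (Real.exp Real.pi) * ENNReal.ofReal (Cg * B * S.card) := by
        gcongr
        refine le_trans (le_of_eq ?_) (diag B hB S t ht)
        refine Finset.sum_congr rfl fun k _ => Finset.sum_congr rfl fun j _ => ?_
        congr 4
        ring
    _ = _ := by rw [← ENNReal.ofReal_mul (Real.exp_pos _).le]

/-- Cauchy-Schwarz with a parameter -/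
lemma csl (A : Set ℝ) (hA : MeasurableSet A) (f g : ℝ → ℝ) (hf : Measurable f) (X Y l : ℝ)
    (hl : 0 < l) (hX : 0 ≤ X) (hY : 0 ≤ Y)
    (h1 : ∫⁻ ξ in A, ENNReal.ofReal (f ξ ^ 2) ≤ ENNReal.ofReal X)
    (h2 : ∫⁻ ξ in A, ENNReal.ofReal (g ξ ^ 2) ≤ ENNReal.ofReal Y) :
    ∫⁻ ξ in A, ENNReal.ofReal (f ξ * g ξ) ≤ ENNReal.ofReal (l / 2 * X + 1 / (2 * l) * Y) := by
  calc ∫⁻ ξ in A, ENNReal.ofReal (f ξ * g ξ) ≤
      ∫⁻ ξ in A, (ENNReal.ofReal (l / 2) * ENNReal.ofReal (f ξ ^ 2) +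
        ENNReal.ofReal (1 / (2 * l)) * ENNReal.ofReal (g ξ ^ 2)) := by
        refine setLIntegral_mono' hA fun ξ _ => ?_
        rw [← ENNReal.ofReal_mul (by positivity), ← ENNReal.ofReal_mul (by positivity),
          ← ENNReal.ofReal_add (by positivity) (by positivity)]
        apply ENNReal.ofReal_le_ofReal
        have h3 : l / 2 * f ξ ^ 2 + 1 / (2 * l) * g ξ ^ 2 - f ξ * g ξ =
            1 / (2 * l) * (l * f ξ - g ξ) ^ 2 := by
          field_simp
          ring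
        have h4 : 0 ≤ 1 / (2 * l) * (l * f ξ - g ξ) ^ 2 := by positivity
        linarith
    _ = ENNReal.ofReal (l / 2) * (∫⁻ ξ in A, ENNReal.ofReal (f ξ ^ 2)) +
        ENNReal.ofReal (1 / (2 * l)) * ∫⁻ ξ in A, ENNReal.ofReal (g ξ ^ 2) := by
        rw [lintegral_add_left, lintegral_const_mul' _ _ ENNReal.ofReal_ne_top,
          lintegral_const_mul' _ _ ENNReal.ofReal_ne_top]
        exact Measurable.const_mul (hf.pow_const 2).ennreal_ofReal _
    _ ≤ ENNReal.ofReal (l / 2) * ENNReal.ofReal X +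
        ENNReal.ofReal (1 / (2 * l)) * ENNReal.ofReal Y := by gcongr
    _ = _ := by
        rw [← ENNReal.ofReal_mul (by positivity), ← ENNReal.ofReal_mul (by positivity),
          ← ENNReal.ofReal_add (by positivity) (by positivity)]

/-- the product of the squares, normalised -/
lemma prod_sq {ι : Type} [Fintype ι] (a A c : ι → ℝ) (l : ℕ) (ξ : ℝ)
    (hn : ∀ i, 0 < nn A c l i) :
    ENNReal.ofReal ((∏ i, ‖SS (nn A c l i) (a i) (c i) ξ‖) ^ 2) =
      ENNReal.ofReal ((∏ i, nn A c l i) ^ 2) *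
        ∏ i, ENNReal.ofReal (‖SS (nn A c l i) (a i) (c i) ξ‖ ^ 2 / (nn A c l i) ^ 2) := by
  rw [← ENNReal.ofReal_prod_of_nonneg (fun i _ => by have := hn i; positivity),
    ← ENNReal.ofReal_mul (by positivity), ← Finset.prod_pow, ← Finset.prod_pow,
    ← Finset.prod_mul_distrib]
  congr 1
  refine Finset.prod_congr rfl fun i _ => ?_
  have := (hn i).ne'
  field_simp

lemma SS_cont (n a c : ℝ) : Continuous fun ξ => SS n a c ξ := by
  unfold SS
  exact continuous_finsetSum _ fun v _ => continuous_ee.comp (continuous_id.mul continuous_const)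

end Pool.Agent.L7h73.GC
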